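import Pool.Agent.Helper55.BD.Up
import Pool.Agent.Helper15.ZF.NormSet

/-!
# Norms from fields over which forms have a zero, one prime at a time
-/

set_option autoImplicit false

open Polynomial

namespace ZF

universe u

/-- An element whose powers of exponents prime to each prime number lie in `S`. -/
theorem mem_of_pow_mem {E : Type u} [Field E] {S : Set E}
    (hmul : ∀ a b, a ∈ S → b ∈ S → a * b ∈ S) (hinv : ∀ a, a ∈ S → a⁻¹ ∈ S) {g : E}
    (hg : g ≠ 0) (h : ∀ l : ℕ, l.Prime → ∃ m : ℕ, m.Coprime l ∧ g ^ m ∈ S) : g ∈ S := by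
  have h1 : (1 : E) ∈ S := by
    obtain ⟨m, -, hm⟩ := h 2 Nat.prime_two
    have h2 := hmul _ _ hm (hinv _ hm)
    rwa [mul_inv_cancel₀ (pow_ne_zero _ hg)] at h2
  let H : AddSubgroup ℤ :=
    { carrier := {k | g ^ k ∈ S}
      zero_mem' := by
        change g ^ (0 : ℤ) ∈ S
        rwa [zpow_zero]
      add_mem' := fun {a b} ha hb => by
        change g ^ (a + b) ∈ S
        rw [zpow_add₀ hg]
        exact hmul _ _ ha hb
      neg_mem' := fun {a} ha => by
        change g ^ (-a) ∈ S
        rw [zpow_neg]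
        exact hinv _ ha }
  have hH : ∀ k : ℤ, k ∈ H ↔ g ^ k ∈ S := fun k => Iff.rfl
  obtain ⟨d, hd⟩ := Int.subgroup_cyclic H
  rw [← AddSubgroup.zmultiples_eq_closure] at hd
  have hdvd : ∀ m : ℕ, g ^ m ∈ S → d ∣ (m : ℤ) := by
    intro m hm
    have h2 : (m : ℤ) ∈ H := by
      rw [hH, zpow_natCast]
      exact hm
    rw [hd, Int.mem_zmultiples_iff] at h2
    exact h2
  have hunit : d.natAbs = 1 := by
    by_contra hne
    obtain ⟨l, hl, hld⟩ := Nat.exists_prime_and_dvd hne
    obtain ⟨m, hml, hm⟩ := h l hl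
    have h3 : l ∣ m := hld.trans (by
      have h4 := Int.natAbs_dvd_natAbs.2 (hdvd m hm)
      simpa using h4)
    have h5 : l ∣ Nat.gcd m l := Nat.dvd_gcd h3 dvd_rfl
    rw [hml] at h5
    exact hl.one_lt.ne' (Nat.dvd_one.1 h5)
  have h6 : (1 : ℤ) ∈ H := by
    rw [hd, Int.mem_zmultiples_iff]
    exact Int.natAbs_dvd.1 (by rw [hunit]; exact one_dvd _)
  rw [hH, zpow_one] at h6
  exact h6

/-- The powers of exponent `[M : E]` if the forms have a zero over the separable extension `M`. -/
theorem NormSet.pow_mem {E : Type u} [Field E] {σ ι : Type} {f : ι → MvPolynomial σ E}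
    {S : Set E} (hS : NormSet f S) {M : Type u} [Field M] [Algebra E M] [FiniteDimensional E M]
    [Algebra.IsSeparable E M] (x : σ → M) (hx0 : x ≠ 0)
    (hx : ∀ i, MvPolynomial.aeval x (f i) = 0) {g : E} (hg : g ≠ 0) :
    g ^ Module.finrank E M ∈ S := by
  set pb := Field.powerBasisOfFiniteOfSeparable E M with hpb
  have hint : IsIntegral E pb.gen := Algebra.IsIntegral.isIntegral _
  have hup : ∀ (M' : Type u) [Field M'] [Algebra E M'], (M →ₐ[E] M') →
      ∃ x : σ → M', x ≠ 0 ∧ ∀ i, MvPolynomial.aeval x (f i) = 0 := by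
    intro M' _ _ s
    refine ⟨fun i => s (x i), fun h0 => hx0 ?_, fun i => ?_⟩
    · funext i
      have h1 := congrFun h0 i
      exact (map_eq_zero s).1 h1
    · have h2 : MvPolynomial.aeval (fun v => s (x v)) (f i) = s (MvPolynomial.aeval x (f i)) :=
        (MvPolynomial.comp_aeval_apply x s (f i)).symm
      rw [h2, hx, map_zero]
  have hroot : ∀ (M' : Type u) [Field M'] [Algebra E M'] (t : M'),
      aeval t (minpoly E pb.gen) = 0 →
      ∃ x : σ → M', x ≠ 0 ∧ ∀ i, MvPolynomial.aeval x (f i) = 0 :=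
    fun M' _ _ t ht => hup M' (pb.lift t ht)
  have hdim : (minpoly E pb.gen).natDegree = Module.finrank E M := by
    rw [pb.natDegree_minpoly, pb.finrank]
  by_cases h0 : pb.gen = 0
  · have h1 : minpoly E pb.gen = X := by rw [h0, minpoly.zero]
    have h2 : Module.finrank E M = 1 := by rw [← hdim, h1, natDegree_X]
    have h3 := hS.poly (X + C g) (by simpa using hg) (fun M' _ _ _ t _ =>
      hroot M' 0 (by rw [h1, aeval_X]))
    rw [coeff_add, coeff_X_zero, coeff_C_zero, zero_add, leadingCoeff_X_add_C, div_one] at h3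
    rw [h2, pow_one]
    exact h3
  · have hc0 : (minpoly E pb.gen).coeff 0 ≠ 0 := minpoly.coeff_zero_ne_zero hint h0
    have hmon : (minpoly E pb.gen).leadingCoeff = 1 := minpoly.monic hint
    have h1 := hS.poly (minpoly E pb.gen) hc0 (fun M' _ _ _ t ht => hroot M' t ht)
    have hgi : g⁻¹ ≠ 0 := inv_ne_zero hg
    set P : E[X] := (minpoly E pb.gen).comp (C g⁻¹ * X) with hP
    have hP0 : P.coeff 0 = (minpoly E pb.gen).coeff 0 := by
      rw [coeff_zero_eq_eval_zero, hP, eval_comp, eval_mul, eval_C, eval_X, mul_zero,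
        ← coeff_zero_eq_eval_zero]
    have hPl : P.leadingCoeff = (g ^ Module.finrank E M)⁻¹ := by
      rw [hP, leadingCoeff_comp (by rw [natDegree_C_mul_X _ hgi]; exact one_ne_zero), hmon,
        leadingCoeff_C_mul_X, one_mul, hdim, inv_pow]
    have h2 := hS.poly P (by rw [hP0]; exact hc0) (fun M' _ _ _ t ht => by
      refine hroot M' (algebraMap E M' g⁻¹ * t) ?_
      rw [hP, aeval_comp, map_mul, aeval_C, aeval_X] at ht
      exact ht)
    rw [hP0, hPl, div_inv_eq_mul] at h2
    rw [hmon, div_one] at h1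
    have h3 := hS.mul _ _ (hS.inv _ h1) h2
    rwa [← mul_assoc, inv_mul_cancel₀ hc0, one_mul] at h3

/-- Over a function field of one variable over a field which satisfies the weighted Tsen-Lang
property after extensions prime to each prime number, every element is a product of norms from
fields over which the forms have a zero. -/
theorem NormSet.of_local {K E : Type u} [Field K] [Field E] [Algebra K E]
    (hE : ZC.IsCurveField K E) (hK : ∀ l : ℕ, l.Prime → ZC.WTLup l K) {n r : ℕ} {d : Fin r → ℕ}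
    (hd : ∀ i, 0 < d i)
    (hn : ∀ l : ℕ, l.Prime → ∑ i, d i ^ 2 * l ^ padicValNat l (d i) ≤ n)
    (f : Fin r → MvPolynomial (Fin (n + 1)) E) (hf : ∀ i, (f i).IsHomogeneous (d i))
    {S : Set E} (hS : NormSet f S) (g : E) (hg : g ≠ 0) : g ∈ S := by
  refine mem_of_pow_mem hS.mul hS.inv hg fun l hl => ?_
  have h1 : ZC.WTLupI l 2 E := ZC.IsCurveField.wtlupI hl.pos (ZC.wtlupI_one.2 (hK l hl)) hE
  obtain ⟨M, _, _, _, _, hcop, x, hx0, hx⟩ := h1.exists_zero d hd (hn l hl) f hf
  exact ⟨Module.finrank E M, hcop, hS.pow_mem x hx0 hx hg⟩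

end ZF
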