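import Pool.Agent.Helper55.BD.LocalLift
import Pool.Agent.Helper63.ZF.Lifts

/-!
# Norms from fields over which forms have a zero, after an extension prime to `l`
-/

set_option autoImplicit false

open Polynomial Module

namespace ZF

universe u

/-- A set of nonzero elements which is closed under products and inverses and contains `-1` and the
norms of the nonzero elements of the finite extensions over which `f` has a nontrivial zero. -/
structure NormSet2 {E : Type u} [Field E] {σ ι : Type} (f : ι → MvPolynomial σ E)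
    (S : Set E) : Prop extends NormSet f S where
  one : (1 : E) ∈ S
  neg : (-1 : E) ∈ S
  norm : ∀ (M : Type u) [Field M] [Algebra E M] [FiniteDimensional E M] (x : σ → M), x ≠ 0 →
    (∀ i, MvPolynomial.aeval x (f i) = 0) → ∀ t : M, t ≠ 0 → Algebra.norm E t ∈ S

theorem pow_mem_of {E : Type u} [Field E] {S : Set E}
    (hmul : ∀ a b, a ∈ S → b ∈ S → a * b ∈ S) (hone : (1 : E) ∈ S) {a : E} (ha : a ∈ S) (k : ℕ) :
    a ^ k ∈ S := by
  induction k with
  | zero => rwa [pow_zero]
  | succ k ih => rw [pow_succ]; exact hmul _ _ ih ha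

theorem poly_of_irreducible {E : Type u} [Field E] {σ ι : Type} {f : ι → MvPolynomial σ E}
    {T : Set E} (hmul : ∀ a b, a ∈ T → b ∈ T → a * b ∈ T) (hone : (1 : E) ∈ T)
    (hirr : ∀ i : E[X], Irreducible i → i.coeff 0 ≠ 0 →
      (∃ x : σ → AdjoinRoot i, x ≠ 0 ∧ ∀ k, MvPolynomial.aeval x (f k) = 0) →
      i.coeff 0 / i.leadingCoeff ∈ T) (P : E[X]) : P.coeff 0 ≠ 0 →
    (∀ (M : Type u) [Field M] [Algebra E M] [FiniteDimensional E M] (t : M), aeval t P = 0 →
      ∃ x : σ → M, x ≠ 0 ∧ ∀ i, MvPolynomial.aeval x (f i) = 0) →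
    P.coeff 0 / P.leadingCoeff ∈ T := by
  induction P using WfDvdMonoid.induction_on_irreducible with
  | zero =>
    intro h0
    exact absurd rfl h0
  | unit u hu =>
    intro h0 _
    obtain ⟨a, ha, rfl⟩ := Polynomial.isUnit_iff.1 hu
    rw [Polynomial.coeff_C_zero, Polynomial.leadingCoeff_C, div_self ha.ne_zero]
    exact hone
  | mul a i ha hi ih =>
    intro h0 hr
    rw [Polynomial.mul_coeff_zero] at h0
    have hi0 : i.coeff 0 ≠ 0 := left_ne_zero_of_mul h0
    have ha0 : a.coeff 0 ≠ 0 := right_ne_zero_of_mul h0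
    have h1 := ih ha0 fun M _ _ _ t ht => hr M t (by rw [map_mul, ht, mul_zero])
    have h2 : i.coeff 0 / i.leadingCoeff ∈ T := by
      have : Fact (Irreducible i) := ⟨hi⟩
      have hfin : FiniteDimensional E (AdjoinRoot i) :=
        (AdjoinRoot.powerBasis hi.ne_zero).finite
      have hroot : Polynomial.aeval (AdjoinRoot.root i) i = 0 := by
        rw [AdjoinRoot.aeval_eq, AdjoinRoot.mk_self]
      exact hirr i hi hi0 (hr (AdjoinRoot i) (AdjoinRoot.root i) (by
        rw [map_mul, hroot, zero_mul]))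
    have h3 := hmul _ _ h2 h1
    rwa [div_mul_div_comm, ← Polynomial.leadingCoeff_mul, ← Polynomial.mul_coeff_zero] at h3

/-- The norm of the root of an irreducible polynomial. -/
theorem norm_root {M : Type u} [Field M] {i : M[X]} (hi : Irreducible i) :
    Algebra.norm M (AdjoinRoot.root i) = (-1) ^ i.natDegree * (i.coeff 0 / i.leadingCoeff) := by
  have : Fact (Irreducible i) := ⟨hi⟩
  have h7 := Algebra.PowerBasis.norm_gen_eq_coeff_zero_minpoly (AdjoinRoot.powerBasis hi.ne_zero)
  rw [AdjoinRoot.powerBasis_gen, AdjoinRoot.minpoly_root hi.ne_zero,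
    AdjoinRoot.powerBasis_dim, Polynomial.mul_coeff_zero, Polynomial.coeff_C_zero] at h7
  rw [h7, div_eq_mul_inv]

section up

variable {E Ω : Type u} [Field E] [Field Ω] [Algebra E Ω]

/-- The norms from a smaller to a larger level. -/
theorem norm_level {M M' : IntermediateField E Ω} [FiniteDimensional E M'] (h : M ≤ M') {x : Ω}
    (hx : x ∈ M) : ∃ k : ℕ, finrank E M * k = finrank E M' ∧
      Algebra.norm E (⟨x, h hx⟩ : M') = Algebra.norm E (⟨x, hx⟩ : M) ^ k := by
  let _ : Algebra M M' := (IntermediateField.inclusion h).toRingHom.toAlgebra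
  have : IsScalarTower E M M' := IsScalarTower.of_algebraMap_eq fun _ => rfl
  have : FiniteDimensional M M' := FiniteDimensional.right E M M'
  refine ⟨finrank M M', finrank_mul_finrank E M M', ?_⟩
  have h1 : (⟨x, h hx⟩ : M') = algebraMap M M' ⟨x, hx⟩ := rfl
  rw [← Algebra.norm_norm (S := M), h1, Algebra.norm_algebraMap, map_pow]

theorem exists_level {l : ℕ} (hO : ZC.PrimeTo l E Ω) (M : IntermediateField E Ω)
    [FiniteDimensional E M] (s : Finset Ω) : ∃ M' : IntermediateField E Ω, M ≤ M' ∧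
      (s : Set Ω) ⊆ M' ∧ FiniteDimensional E M' ∧ (finrank E M').Coprime l := by
  classical
  set b := Module.finBasis E M with hb
  obtain ⟨M', hM', hfin, -, hcop⟩ := hO (s ∪ Finset.univ.image fun i => (b i : Ω))
  refine ⟨M', fun x hx => ?_, fun x hx => hM' (by
    rw [Finset.coe_union]
    exact Or.inl hx), hfin, hcop⟩
  have h2 := congrArg (algebraMap M Ω) (b.sum_repr ⟨x, hx⟩)
  rw [map_sum] at h2
  change _ = x at h2
  rw [← h2]
  refine sum_mem fun i _ => ?_
  exact M'.smul_mem (hM' (by simp) : (b i : Ω) ∈ M')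

theorem coprime_level {l : ℕ} (hO : ZC.PrimeTo l E Ω) (M : IntermediateField E Ω)
    [FiniteDimensional E M] : (finrank E M).Coprime l := by
  obtain ⟨M', h1, -, hfin, hcop⟩ := exists_level hO M ∅
  let _ : Algebra M M' := (IntermediateField.inclusion h1).toRingHom.toAlgebra
  have : IsScalarTower E M M' := IsScalarTower.of_algebraMap_eq fun _ => rfl
  have h2 := finrank_mul_finrank E M M'
  exact hcop.coprime_dvd_left ⟨_, h2.symm⟩

/-- The elements a power of exponent prime to `l` of whose norm from some level lies in `S`. -/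
def upSet (l : ℕ) (S : Set E) : Set Ω :=
  {h | h ≠ 0 ∧ ∃ (M : IntermediateField E Ω) (_ : FiniteDimensional E M) (hM : h ∈ M) (m : ℕ),
    m.Coprime l ∧ Algebra.norm E (⟨h, hM⟩ : M) ^ m ∈ S}

theorem NormSet2.normSet_upSet {l : ℕ} (hO : ZC.PrimeTo l E Ω) {σ ι : Type} [Finite σ]
    {f : ι → MvPolynomial σ E} {S : Set E} (hS : NormSet2 f S) :
    NormSet (fun i => MvPolynomial.map (algebraMap E Ω) (f i)) (upSet l S : Set Ω) := by
  classical
  have hmul : ∀ a b : Ω, a ∈ upSet l S → b ∈ upSet l S → a * b ∈ upSet l S := by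
    rintro a b ⟨ha, M₁, _, hM₁, m₁, hm₁, h₁⟩ ⟨hb, M₂, _, hM₂, m₂, hm₂, h₂⟩
    obtain ⟨M, hM, -, hfin, -⟩ := exists_level hO (M₁ ⊔ M₂) ∅
    have hMa : M₁ ≤ M := le_sup_left.trans hM
    have hMb : M₂ ≤ M := le_sup_right.trans hM
    obtain ⟨k₁, -, hk₁⟩ := norm_level hMa hM₁
    obtain ⟨k₂, -, hk₂⟩ := norm_level hMb hM₂
    refine ⟨mul_ne_zero ha hb, M, hfin, mul_mem (hMa hM₁) (hMb hM₂), m₁ * m₂, hm₁.mul_left hm₂, ?_⟩
    have h3 : (⟨a * b, mul_mem (hMa hM₁) (hMb hM₂)⟩ : M) = ⟨a, hMa hM₁⟩ * ⟨b, hMb hM₂⟩ := rfl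
    rw [h3, map_mul, hk₁, hk₂, mul_pow]
    refine hS.mul _ _ ?_ ?_
    · have := pow_mem_of hS.mul hS.one h₁ (k₁ * m₂)
      rw [← pow_mul] at this ⊢
      rwa [show k₁ * (m₁ * m₂) = m₁ * (k₁ * m₂) by ring]
    · have := pow_mem_of hS.mul hS.one h₂ (k₂ * m₁)
      rw [← pow_mul] at this ⊢
      rwa [show k₂ * (m₁ * m₂) = m₂ * (k₂ * m₁) by ring]
  have hint : ∀ (M : IntermediateField E Ω) (_ : FiniteDimensional E M) (z : M), z ≠ 0 →
      Algebra.norm E z ∈ S → (z : Ω) ∈ upSet l S := fun M _ z hz h =>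
    ⟨fun h0 => hz (Subtype.ext h0), M, inferInstance, z.2, 1, Nat.coprime_one_left l, by
      rw [pow_one]; exact h⟩
  have hone : (1 : Ω) ∈ upSet l S := by
    have := hint ⊥ inferInstance 1 one_ne_zero (by rw [map_one]; exact hS.one)
    exact this
  refine ⟨hmul, ?_, fun P => poly_of_irreducible hmul hone ?_ P⟩
  · rintro a ⟨ha, M, hfin, hM, m, hm, h⟩
    refine ⟨inv_ne_zero ha, M, hfin, inv_mem hM, m, hm, ?_⟩
    have h1 : (⟨a⁻¹, inv_mem hM⟩ : M) = (⟨a, hM⟩ : M)⁻¹ := rfl
    have h2 : Algebra.norm E (⟨a, hM⟩ : M)⁻¹ = (Algebra.norm E (⟨a, hM⟩ : M))⁻¹ := by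
      refine eq_inv_of_mul_eq_one_left ?_
      rw [← map_mul, inv_mul_cancel₀ (fun h0 => ha (congrArg Subtype.val h0)), map_one]
    rw [h1, h2, inv_pow]
    exact hS.inv _ h
  · rintro i hi hi0 ⟨x, hx0, hx⟩
    cases nonempty_fintype σ
    choose g hg using fun v => AdjoinRoot.mk_surjective (x v)
    let s : Finset Ω := (i.support.image i.coeff) ∪
      Finset.univ.biUnion fun v => (g v).support.image (g v).coeff
    obtain ⟨M, -, hM, hfin, -⟩ := exists_level hO (⊥ : IntermediateField E Ω) s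
    have hlift : ∀ p : Polynomial Ω, (∀ n, p.coeff n ≠ 0 → p.coeff n ∈ s) →
        ∃ p' : Polynomial M, p'.map (algebraMap M Ω) = p := by
      intro p hp
      refine (Polynomial.mem_lifts p).1 ((Polynomial.lifts_iff_coeff_lifts p).2 fun n => ?_)
      by_cases hn : p.coeff n = 0
      · exact ⟨0, by rw [map_zero, hn]⟩
      · exact ⟨⟨p.coeff n, hM (hp n hn)⟩, rfl⟩
    obtain ⟨i', hi'⟩ := hlift i fun n hn => Finset.mem_union_left _
      (Finset.mem_image.2 ⟨n, Polynomial.mem_support_iff.2 hn, rfl⟩)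
    have hg' : ∀ v, ∃ p' : Polynomial M, p'.map (algebraMap M Ω) = g v := fun v =>
      hlift (g v) fun n hn => Finset.mem_union_right _ (Finset.mem_biUnion.2
        ⟨v, Finset.mem_univ v, Finset.mem_image.2 ⟨n, Polynomial.mem_support_iff.2 hn, rfl⟩⟩)
    choose g' hg' using hg'
    have hirr : Irreducible i' := by
      have hloc : IsLocalHom (Polynomial.mapRingHom (algebraMap M Ω)) :=
        ⟨fun a ha => (Polynomial.isUnit_map (algebraMap M Ω)).1 ha⟩
      refine Irreducible.of_map (f := Polynomial.mapRingHom (algebraMap M Ω)) ?_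
      rw [Polynomial.coe_mapRingHom, hi']
      exact hi
    have : Fact (Irreducible i') := ⟨hirr⟩
    have : Fact (Irreducible i) := ⟨hi⟩
    have hfin' : FiniteDimensional M (AdjoinRoot i') :=
      (AdjoinRoot.powerBasis hirr.ne_zero).finite
    have hfin2 : FiniteDimensional E (AdjoinRoot i') := FiniteDimensional.trans E M _
    let φ : AdjoinRoot i' →+* AdjoinRoot i :=
      AdjoinRoot.map (algebraMap M Ω) i' i (by rw [hi'])
    have hφ : ∀ p : Polynomial M, φ (AdjoinRoot.mk i' p) = AdjoinRoot.mk i (p.map (algebraMap M Ω)) := by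
      intro p
      induction p using Polynomial.induction_on' with
      | add p q hp hq => rw [map_add, map_add, hp, hq, Polynomial.map_add, map_add]
      | monomial n a =>
        rw [← Polynomial.C_mul_X_pow_eq_monomial, map_mul, map_mul, map_pow, map_pow,
          AdjoinRoot.mk_C, AdjoinRoot.mk_X, Polynomial.map_mul, Polynomial.map_pow,
          Polynomial.map_C, Polynomial.map_X, map_mul, map_pow, AdjoinRoot.mk_C, AdjoinRoot.mk_X,
          AdjoinRoot.map_of, AdjoinRoot.map_root]
    let x' : σ → AdjoinRoot i' := fun v => AdjoinRoot.mk i' (g' v)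
    have hx' : ∀ v, φ (x' v) = x v := fun v => by
      change φ (AdjoinRoot.mk i' (g' v)) = x v
      rw [hφ, hg', hg]
    have hx'0 : x' ≠ 0 := by
      intro h0
      apply hx0
      funext v
      rw [← hx' v, h0]
      exact map_zero φ
    have hz : ∀ k, MvPolynomial.aeval x' (f k) = 0 := by
      intro k
      apply φ.injective
      rw [map_zero, ← hx k, MvPolynomial.aeval_def, MvPolynomial.aeval_def,
        MvPolynomial.eval₂_map, MvPolynomial.hom_eval₂]
      congr 1
      · ext r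
        simp only [RingHom.coe_comp, Function.comp_apply]
        rw [IsScalarTower.algebraMap_apply E M (AdjoinRoot i'), AdjoinRoot.algebraMap_eq,
          AdjoinRoot.algebraMap_eq, AdjoinRoot.map_of]
        rfl
      · funext v
        exact hx' v
    have hc : algebraMap M Ω (i'.coeff 0) = i.coeff 0 := by rw [← hi', Polynomial.coeff_map]
    have hl : algebraMap M Ω i'.leadingCoeff = i.leadingCoeff := by
      rw [← hi', Polynomial.leadingCoeff_map]
    have ht : AdjoinRoot.root i' ≠ 0 := by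
      intro h0'
      have h3 : Polynomial.aeval (AdjoinRoot.root i') i' = 0 := by
        rw [AdjoinRoot.aeval_eq, AdjoinRoot.mk_self]
      rw [h0', ← Polynomial.coeff_zero_eq_aeval_zero', map_eq_zero] at h3
      rw [h3, map_zero] at hc
      exact hi0 hc.symm
    have h5 := hS.norm (AdjoinRoot i') x' hx'0 hz (AdjoinRoot.root i') ht
    rw [← Algebra.norm_norm (S := M), norm_root hirr, map_mul, map_pow] at h5
    have h6 : (Algebra.norm E (-1 : M)) ^ i'.natDegree ∈ S := by
      have h7 : Algebra.norm E (-1 : M) = (-1) ^ finrank E M := by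
        have h8 : (-1 : M) = algebraMap E M (-1) := by rw [map_neg, map_one]
        rw [h8, Algebra.norm_algebraMap]
      rw [h7, ← pow_mul]
      exact pow_mem_of hS.mul hS.one hS.neg _
    have h6' : (Algebra.norm E (-1 : M)) ^ i'.natDegree ≠ 0 :=
      pow_ne_zero _ (Algebra.norm_ne_zero_iff.2 (neg_ne_zero.2 one_ne_zero))
    have h9 : Algebra.norm E (i'.coeff 0 / i'.leadingCoeff) ∈ S := by
      have := hS.mul _ _ (hS.inv _ h6) h5
      rwa [← mul_assoc, inv_mul_cancel₀ h6', one_mul] at this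
    have hne : i'.coeff 0 / i'.leadingCoeff ≠ 0 := by
      refine div_ne_zero (fun h => hi0 ?_) (Polynomial.leadingCoeff_ne_zero.2 hirr.ne_zero)
      rw [← hc, h, map_zero]
    have h10 := hint M hfin _ hne h9
    have h11 : ((i'.coeff 0 / i'.leadingCoeff : M) : Ω) = i.coeff 0 / i.leadingCoeff := by
      rw [← hc, ← hl, ← map_div₀]
      rfl
    rwa [h11] at h10

/-- **Descent.**  If over the union `Ω` of extensions prime to `l` every nonzero element lies in
every set of norms, then a power of exponent prime to `l` of every nonzero element lies in `S`. -/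
theorem NormSet2.of_up {l : ℕ} (hO : ZC.PrimeTo l E Ω) {σ ι : Type} [Finite σ]
    {f : ι → MvPolynomial σ E} {S : Set E} (hS : NormSet2 f S)
    (key : ∀ T : Set Ω, NormSet (fun i => MvPolynomial.map (algebraMap E Ω) (f i)) T →
      ∀ g : Ω, g ≠ 0 → g ∈ T) (g : E) (hg : g ≠ 0) : ∃ m : ℕ, m.Coprime l ∧ g ^ m ∈ S := by
  obtain ⟨-, M, hfin, hM, m, hm, h⟩ := key _ (hS.normSet_upSet hO) (algebraMap E Ω g)
    ((_root_.map_ne_zero _).2 hg)
  refine ⟨finrank E M * m, (coprime_level hO M).mul_left hm, ?_⟩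
  have h1 : (⟨algebraMap E Ω g, hM⟩ : M) = algebraMap E M g := rfl
  rwa [h1, Algebra.norm_algebraMap, ← pow_mul] at h

end up

section lifts

variable {K : Type u} [Field K] {V ι R : Type} [Finite V] {p : V → ι} {n r : ℕ}
  {X : MVar K (addBlock n p) (Fin r ⊕ R)} {B : MVar K p R}

/-- The functions whose cycle on `B` lifts to a cycle on `X` which is rationally equivalent to
zero. -/
theorem normSet2_lifts (h : X.IsOver B) {E : Type u} [Field E] [Algebra K E]
    (hE : ZC.IsCurveField K E) (y : V → E) (hy : B.IsPt y) :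
    NormSet2 (fib X y).form
      {g : E | g ≠ 0 ∧ ∃ c ∈ ratEquiv X, pushZ h c = curveCycle B y hy g} := by
  refine { normSet_lifts h hE y hy with
    one := ⟨one_ne_zero, 0, zero_mem _, by rw [map_zero, curveCycle_one]⟩
    neg := ⟨neg_ne_zero.2 one_ne_zero, 0, zero_mem _, by rw [map_zero, curveCycle_neg_one]⟩
    norm := ?_ }
  intro M _ _ _ x hx0 hx t ht
  let _ : Algebra K M := ((algebraMap E M).comp (algebraMap K E)).toAlgebra
  have : IsScalarTower K E M := IsScalarTower.of_algebraMap_eq fun _ => rfl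
  obtain ⟨c, hc, h4⟩ := norm_mem_lifts h hE y hy x ⟨hx0, hx⟩ t ht
  exact ⟨Algebra.norm_ne_zero_iff.2 ht, c, hc, h4⟩

end lifts

end ZF
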