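import Pool.Agent.Helper72.FU.Good
import Pool.Agent.Helper55.BD.LocalLift
import Pool.Agent.Helper15.ZF.Section

/-! # The push-forward is an isomorphism -/

set_option autoImplicit false

open MvPolynomial ZC

namespace ZF

universe u

/-- **Norms for systems of forms of low degree.** -/
theorem NormSet.of_liftDeg2 {K E : Type u} [Field K] [Field E] [Algebra K E] (hK : Good K)
    (hE : IsCurveField K E) {n r : ℕ} {d : Fin r → ℕ} (hd : ∀ i, 0 < d i) (h : LiftDeg2 n d)
    (f : Fin r → MvPolynomial (Fin (n + 1)) E) (hf : ∀ i, (f i).IsHomogeneous (d i))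
    {S : Set E} (hS : NormSet f S) (g : E) (hg : g ≠ 0) : g ∈ S := by
  rcases h with h | h | h
  · exact hS.of_local hE hK.wtl hd h f hf g hg
  · exact NormSet.of_liftDeg (HasC.curveField (hasC_two hK.c2) hE) (exists_nonsquare hE) hd
      (Or.inr (Or.inl h)) f hf hS g hg
  · exact NormSet.of_liftDeg (HasC.curveField (hasC_two hK.c2) hE) (exists_nonsquare hE) hd
      (Or.inr (Or.inr h)) f hf hS g hg

section sec

variable {K : Type u} [Field K] {V ι R : Type} [Finite V] {p : V → ι} {n r : ℕ}
  {X : MVar K (addBlock n p) (Fin r ⊕ R)} {B : MVar K p R}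

/-- The hypotheses on a family of intersections of hypersurfaces of low degree. -/
structure LowL (X : MVar K (addBlock n p) (Fin r ⊕ R)) (B : MVar K p R) : Prop where
  isOver : X.IsOver B
  pos : ∀ i, 0 < X.deg (Sum.inl i) none
  lift : LiftDeg2 n fun i => X.deg (Sum.inl i) none

omit [Finite V] in
theorem LowL.bc (h : LowL X B) (L : Type u) [Field L] [Algebra K L] :
    LowL (X.bc L) (B.bc L) :=
  ⟨h.isOver.bc L, h.pos, h.lift⟩

theorem exists_secL (h : LowL X B) (hK : Good K) (y : GPt B) :
    ∃ x : Fin (n + 1) → coordField K p y.1, X.IsPt (Sum.elim x (nrm y)) := by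
  have := coordField_finite (p := p) y.1
  exact exists_lift h.isOver (q := 2) (hasC_two hK.c2.finite) h.pos h.lift.sum_sq_le _
    (nrm_isPt y)

/-- The section of the push-forward on closed points. -/
noncomputable def secPtL (h : LowL X B) (hK : Good K) (b : ClosedPoint B) : ClosedPoint X →₀ ℤ :=
  ptCycle X (Sum.elim (exists_secL h hK b.out).choose (nrm b.out))
    (exists_secL h hK b.out).choose_spec

/-- The section of the push-forward on zero-cycles. -/
noncomputable def secZL (h : LowL X B) (hK : Good K) :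
    (ClosedPoint B →₀ ℤ) →+ (ClosedPoint X →₀ ℤ) :=
  linExt (secPtL h hK)

theorem secZL_single (h : LowL X B) (hK : Good K) (b : ClosedPoint B) :
    secZL h hK (Finsupp.single b 1) = secPtL h hK b := by
  rw [secZL, linExt_single, one_smul]

theorem pushZ_secPtL (h : LowL X B) (hK : Good K) (b : ClosedPoint B) :
    pushZ h.isOver (secPtL h hK b) = Finsupp.single b 1 := by
  have := coordField_finite (p := p) b.out.1
  rw [secPtL, pushZ_ptCycle]
  exact single_out b

theorem pushZ_secZL (h : LowL X B) (hK : Good K) (c : ClosedPoint B →₀ ℤ) :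
    pushZ h.isOver (secZL h hK c) = c := by
  induction c using Finsupp.induction_linear with
  | zero => rw [map_zero, map_zero]
  | add f g hf hg => rw [map_add, map_add, hf, hg]
  | single P a =>
    have : Finsupp.single P a = a • Finsupp.single P (1 : ℤ) := by
      rw [Finsupp.smul_single, smul_eq_mul, mul_one]
    rw [this, map_zsmul, map_zsmul, secZL_single, pushZ_secPtL]

/-- Every point of `X` is rationally equivalent to the section of its image. -/
theorem sec_equivL (h : LowL X B) (hK : Good K) {L : Type u} [Field L] [Algebra K L]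
    [FiniteDimensional K L] (q : Fin (n + 1) ⊕ V → L) (hq : X.IsPt q) :
    ptCycle X q hq - secZL h hK (ptCycle B (fun v => q (Sum.inr v)) (h.isOver.isPt hq)) ∈
      ratEquiv X := by
  set y : V → L := fun v => q (Sum.inr v) with hy
  have hyB : B.IsPt y := h.isOver.isPt hq
  set b : ClosedPoint B := closedPt B y hyB with hb
  obtain ⟨τ, c, hc, hτ⟩ := exists_emb B y hyB b.out (Quotient.out_eq b).symm
  have hfd := coordField_finite (p := p) b.out.1
  set xb := (exists_secL h hK b.out).choose with hxb
  have hxb' : X.IsPt (Sum.elim xb (nrm b.out)) := (exists_secL h hK b.out).choose_spec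
  have h1 : X.IsPt fun v => τ (Sum.elim xb (nrm b.out) v) := isPt_comp X τ hxb'
  let c' : Option ι → L := fun j => Option.elim j 1 c
  have hc' : ∀ j, c' j ≠ 0 := by
    rintro (_ | j)
    · exact one_ne_zero
    · exact hc j
  have h2 : ∀ v, (Sum.elim (fun a => τ (xb a)) y : Fin (n + 1) ⊕ V → L) v =
      c' (addBlock n p v) * τ (Sum.elim xb (nrm b.out) v) := by
    rintro (a | v)
    · exact (one_mul _).symm
    · exact hτ v
  have h3 : X.IsPt (Sum.elim (fun a => τ (xb a)) y) := isPt_scale X c' hc' h1 h2
  have hq' : q = Sum.elim (fun a => q (Sum.inl a)) y := by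
    funext v
    rcases v with a | v <;> rfl
  have hq2 : X.IsPt (Sum.elim (fun a => q (Sum.inl a)) y) := hq' ▸ hq
  have e1 := fibre_equiv2 hK h.isOver h.pos h.lift.sum_sq_le (fun a => q (Sum.inl a))
    (fun a => τ (xb a)) y hq2 h3
  have e2 : ptCycle X (Sum.elim (fun a => τ (xb a)) y) h3 =
      ptCycle X (fun v => τ (Sum.elim xb (nrm b.out) v)) h1 :=
    (ptCycle_congr X AlgEquiv.refl c' hc' h1 h3 h2).symm
  have e3 := ptCycle_tower X τ hxb' h1
  have e4 : ptCycle B y hyB = ptCycle B (fun v => τ (nrm b.out v))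
      (isPt_comp B τ (nrm_isPt b.out)) :=
    (ptCycle_congr B AlgEquiv.refl c hc _ _ hτ).symm
  have e5 := ptCycle_tower B τ (nrm_isPt b.out) (isPt_comp B τ (nrm_isPt b.out))
  rw [single_out] at e5
  have e6 : secZL h hK (ptCycle B y hyB) = ptCycle X (Sum.elim (fun a => τ (xb a)) y) h3 := by
    rw [e4, e5, map_zsmul, secZL_single, e2, e3]
    rfl
  rw [e6, ptCycle_of_eq X hq hq2 hq']
  exact e1

theorem mk_secL (h : LowL X B) (hK : Good K) {L : Type u} [Field L] [Algebra K L]
    [FiniteDimensional K L] (q : Fin (n + 1) ⊕ V → L) (hq : X.IsPt q) :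
    CH0.mk X (secZL h hK (ptCycle B (fun v => q (Sum.inr v)) (h.isOver.isPt hq))) =
      CH0.mk X (ptCycle X q hq) := by
  have := CH0.mk_eq_zero X (sec_equivL h hK q hq)
  rw [map_sub, sub_eq_zero] at this
  exact this.symm

/-- Every zero-cycle is rationally equivalent to the section of its push-forward. -/
theorem mk_sec_pushZL (h : LowL X B) (hK : Good K) (c : ClosedPoint X →₀ ℤ) :
    CH0.mk X (secZL h hK (pushZ h.isOver c)) = CH0.mk X c := by
  induction c using Finsupp.induction_linear with
  | zero => rw [map_zero, map_zero]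
  | add f g hf hg => rw [map_add, map_add, map_add, hf, hg, map_add]
  | single P a =>
    have h1 : Finsupp.single P a = a • Finsupp.single P (1 : ℤ) := by
      rw [Finsupp.smul_single, smul_eq_mul, mul_one]
    have := coordField_finite (p := addBlock n p) P.out.1
    rw [h1, map_zsmul, map_zsmul, map_zsmul, map_zsmul, ← single_out P, pushZ_ptCycle, mk_secL]

theorem ratEquiv_le_secL (h : LowL X B) (hK : Good K) :
    ratEquiv B ≤ (ratEquiv X).comap (secZL h hK) := by
  rw [ratEquiv, AddSubgroup.closure_le]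
  rintro c ⟨E, iF, iA, hE, y, hy, g, hg, rfl⟩
  obtain ⟨-, c', hc', h1⟩ := NormSet.of_liftDeg2 hK hE h.pos h.lift (fib X y).form (fib X y).hom
    (normSet_lifts h.isOver hE y hy) g hg
  have h2 := mk_sec_pushZL h hK c'
  rw [h1, CH0.mk_eq_zero X hc'] at h2
  exact (QuotientAddGroup.eq_zero_iff (secZL h hK (curveCycle B y hy g))).1 h2

/-- The section of the push-forward on classes. -/
noncomputable def CH0.secL (h : LowL X B) (hK : Good K) : CH0 B →+ CH0 X :=
  QuotientAddGroup.map (ratEquiv B) (ratEquiv X) (secZL h hK) (ratEquiv_le_secL h hK)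

theorem CH0.secL_mk (h : LowL X B) (hK : Good K) (c : ClosedPoint B →₀ ℤ) :
    CH0.secL h hK (CH0.mk B c) = CH0.mk X (secZL h hK c) := rfl

theorem CH0.push_secL (h : LowL X B) (hK : Good K) (c : CH0 B) :
    CH0.push h.isOver (CH0.secL h hK c) = c := by
  obtain ⟨c, rfl⟩ := CH0.mk_surjective B c
  rw [CH0.secL_mk, CH0.push_mk, pushZ_secZL]

theorem CH0.secL_push (h : LowL X B) (hK : Good K) (c : CH0 X) :
    CH0.secL h hK (CH0.push h.isOver c) = c := by
  obtain ⟨c, rfl⟩ := CH0.mk_surjective X c
  rw [CH0.push_mk, CH0.secL_mk, mk_sec_pushZL]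

/-- **The push-forward is an isomorphism.** -/
theorem CH0.push_bijectiveL (h : LowL X B) (hK : Good K) :
    Function.Bijective (CH0.push h.isOver) :=
  Function.bijective_iff_has_inverse.2 ⟨CH0.secL h hK, CH0.secL_push h hK, CH0.push_secL h hK⟩

end sec

end ZF
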