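import Pool.Agent.Helper55.BD.Sec
import Pool.Agent.Helper15.ZF.BC

/-! # Base change of the section -/

set_option autoImplicit false

open MvPolynomial ZC TensorProduct

namespace ZF

universe u

variable {K : Type u} [Field K] {V ι R : Type} [Finite V] {p : V → ι} {n r : ℕ}
  {X : MVar K (addBlock n p) (Fin r ⊕ R)} {B : MVar K p R}

theorem pushZ_bcZ_secZL (h : LowL X B) (hK : Good K) (K' : Type u) [Field K'] [Algebra K K']
    (c : ClosedPoint B →₀ ℤ) :
    pushZ (h.isOver.bc K') (bcZ X K' (secZL h hK c)) = bcZ B K' c := by
  induction c using Finsupp.induction_linear with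
  | zero => simp only [map_zero]
  | add f g hf hg => rw [map_add, map_add, map_add, hf, hg, map_add]
  | single b a =>
    have h1 : Finsupp.single b a = a • Finsupp.single b (1 : ℤ) := by
      rw [Finsupp.smul_single, smul_eq_mul, mul_one]
    have hfd := coordField_finite (p := p) b.out.1
    have htop : coordField K (addBlock n p)
        (Sum.elim (exists_secL h hK b.out).choose (nrm b.out)) = ⊤ := by
      rw [eq_top_iff, ← coordField_nrm b.out]
      exact coordField_le (Sum.elim (exists_secL h hK b.out).choose (nrm b.out))
    rw [h1, map_zsmul, map_zsmul, map_zsmul, map_zsmul, secZL_single, secPtL,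
      bcZ_ptCycle X K' _ _ htop, pushZ_bcPt h.isOver K', ← single_out b,
      bcZ_ptCycle B K' _ _ (coordField_nrm b.out)]
    rfl

end ZF
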