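import Pool.Agent.Helper72.ZC.Defs
import Pool.Agent.Helper99.BD.Tsen
import Pool.Agent.Helper99.BD.Comp

/-!
# Weighted Tsen-Lang of level `i` after an extension prime to `l`
-/

set_option autoImplicit false

open MvPolynomial

namespace ZC

universe u v

/-- `WTL l i` holds for a union of finite Galois extensions of degree prime to `l` -/
def WTLupI (l i : ℕ) (K : Type u) [Field K] : Prop :=
  ∃ (M : Type u) (_ : Field M) (_ : Algebra K M), PrimeTo l K M ∧ WTL l i M

theorem wtlupI_one {l : ℕ} {K : Type u} [Field K] : WTLupI l 1 K ↔ WTLup l K := Iff.rfl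

/-- **finite extensions** -/
theorem WTLupI.of_finite {l i : ℕ} {K L : Type u} [Field K] [Field L] [Algebra K L]
    [FiniteDimensional K L] (h : WTLupI l i K) : WTLupI l i L := by
  classical
  obtain ⟨M, _, _, hM, hW⟩ := h
  have halg := hM.isAlgebraic
  let Ω := AlgebraicClosure L
  let φ : M →ₐ[K] Ω := IsAlgClosed.lift
  let _ : Algebra M Ω := φ.toRingHom.toAlgebra
  have hφ : IsScalarTower K M Ω := IsScalarTower.of_algebraMap_eq' φ.comp_algebraMap.symm
  let N : IntermediateField L Ω := IntermediateField.adjoin L (Set.range φ)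
  have hN0 : ∀ x : M, φ x ∈ N := fun x => IntermediateField.subset_adjoin _ _ ⟨x, rfl⟩
  let φN : M →+* N :=
    { toFun := fun x => ⟨φ x, hN0 x⟩
      map_one' := by ext; simp
      map_mul' := fun x y => by ext; simp
      map_zero' := by ext; simp
      map_add' := fun x y => by ext; simp }
  let _ : Algebra M N := φN.toAlgebra
  have hφN : IsScalarTower K M N := by
    refine IsScalarTower.of_algebraMap_eq fun x => ?_
    apply Subtype.ext
    change algebraMap K Ω x = φ (algebraMap K M x)
    rw [φ.commutes]
  refine ⟨N, inferInstance, inferInstance, ?_, ?_⟩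
  · refine hM.base_change (M := M) ?_
    rw [← IntermediateField.lift_inj, IntermediateField.lift_adjoin, IntermediateField.lift_top]
    have h3 : (Subtype.val '' (Set.range (algebraMap M N))) = Set.range φ := by
      ext y
      constructor
      · rintro ⟨_, ⟨x, rfl⟩, rfl⟩
        exact ⟨x, rfl⟩
      · rintro ⟨x, rfl⟩
        exact ⟨_, ⟨x, rfl⟩, rfl⟩
    rw [h3]
  · -- restriction of scalars
    let b := Module.finBasis K L
    have hN : N.toSubfield = Subfield.closure (Set.range (algebraMap M Ω) ∪
        Set.range fun j => algebraMap L Ω (b j)) := by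
      apply le_antisymm
      · change Subfield.closure (Set.range (algebraMap L Ω) ∪ Set.range φ) ≤ _
        rw [Subfield.closure_le]
        rintro x (⟨y, rfl⟩ | hx)
        · have h1 : algebraMap L Ω y =
              ∑ j, algebraMap M Ω (algebraMap K M (b.repr y j)) * algebraMap L Ω (b j) := by
            conv_lhs => rw [← b.sum_repr y]
            rw [map_sum]
            refine Finset.sum_congr rfl fun j _ => ?_
            rw [Algebra.smul_def, map_mul, ← IsScalarTower.algebraMap_apply,
              ← IsScalarTower.algebraMap_apply]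
          rw [h1]
          exact Subfield.sum_mem _ fun j _ => Subfield.mul_mem _
            (Subfield.subset_closure (Or.inl ⟨_, rfl⟩))
            (Subfield.subset_closure (Or.inr ⟨j, rfl⟩))
        · exact Subfield.subset_closure (Or.inl hx)
      · rw [Subfield.closure_le]
        rintro x (hx | ⟨j, rfl⟩)
        · exact IntermediateField.subset_adjoin L _ hx
        · exact N.algebraMap_mem _
    refine WTL.of_adjoin hW (S := Set.range fun j => algebraMap L Ω (b j)) ?_ N.toSubfield hN
    rintro _ ⟨j, rfl⟩
    have h1 : IsIntegral K (algebraMap L Ω (b j)) :=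
      (Algebra.IsIntegral.isIntegral (R := K) (b j)).algebraMap
    exact h1.tower_top

theorem WTLupI.of_ringEquiv {l i : ℕ} {K L : Type u} [Field K] [Field L] (e : K ≃+* L)
    (h : WTLupI l i K) : WTLupI l i L := by
  let _ : Algebra K L := e.toRingHom.toAlgebra
  have : FiniteDimensional K L := by
    have h1 : Function.Surjective (algebraMap K L) := e.surjective
    exact Module.Finite.of_surjective (Algebra.linearMap K L) h1
  exact h.of_finite

/-- rational function fields -/
theorem wtlupI_ratFunc {l i : ℕ} (hl : 0 < l) {F Fl : Type u} [Field F] [Field Fl] [Algebra F Fl]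
    (h : PrimeTo l F Fl) (hW : WTL l i Fl) : WTLupI l (i + 1) (RatFunc F) := by
  let ρ : Polynomial F →+* RatFunc Fl :=
    (algebraMap (Polynomial Fl) (RatFunc Fl)).comp (Polynomial.mapRingHom (algebraMap F Fl))
  have hρ : Function.Injective ρ :=
    (IsFractionRing.injective (Polynomial Fl) (RatFunc Fl)).comp
      (Polynomial.map_injective _ (algebraMap F Fl).injective)
  let φ : RatFunc F →+* RatFunc Fl := IsFractionRing.lift (A := Polynomial F) hρ
  have hφ : ∀ p : Polynomial F, φ (algebraMap (Polynomial F) (RatFunc F) p) = ρ p := fun p =>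
    IsFractionRing.lift_algebraMap hρ p
  let _ : Algebra (RatFunc F) (RatFunc Fl) := φ.toAlgebra
  have t1 : IsScalarTower F (RatFunc F) (RatFunc Fl) := by
    refine IsScalarTower.of_algebraMap_eq fun x => ?_
    change algebraMap F (RatFunc Fl) x = φ (algebraMap F (RatFunc F) x)
    rw [IsScalarTower.algebraMap_apply F (Polynomial F) (RatFunc F), hφ]
    change _ = algebraMap (Polynomial Fl) (RatFunc Fl)
      ((Polynomial.C x : Polynomial F).map (algebraMap F Fl))
    rw [Polynomial.map_C, ← Polynomial.algebraMap_eq, ← IsScalarTower.algebraMap_apply,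
      ← IsScalarTower.algebraMap_apply]
  refine ⟨RatFunc Fl, inferInstance, inferInstance, ?_, ?_⟩
  · refine h.base_change (M := Fl) ?_
    rw [eq_top_iff]
    intro x _
    have hpoly : ∀ p : Polynomial Fl, algebraMap (Polynomial Fl) (RatFunc Fl) p ∈
        IntermediateField.adjoin (RatFunc F) (Set.range (algebraMap Fl (RatFunc Fl))) := by
      intro p
      induction p using Polynomial.induction_on' with
      | add p q hp hq =>
        rw [map_add]
        exact add_mem hp hq
      | monomial n a =>
        have h1 : algebraMap (Polynomial Fl) (RatFunc Fl) (Polynomial.monomial n a) =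
            algebraMap Fl (RatFunc Fl) a * algebraMap (RatFunc F) (RatFunc Fl)
              (algebraMap (Polynomial F) (RatFunc F) Polynomial.X) ^ n := by
          have h2 : algebraMap (RatFunc F) (RatFunc Fl)
              (algebraMap (Polynomial F) (RatFunc F) Polynomial.X) =
              algebraMap (Polynomial Fl) (RatFunc Fl) Polynomial.X := by
            change φ _ = _
            rw [hφ]
            simp [ρ]
          rw [h2, ← Polynomial.C_mul_X_pow_eq_monomial, map_mul, map_pow,
            IsScalarTower.algebraMap_apply Fl (Polynomial Fl) (RatFunc Fl),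
            Polynomial.algebraMap_eq]
        rw [h1]
        exact mul_mem (IntermediateField.subset_adjoin _ _ ⟨a, rfl⟩)
          (pow_mem (IntermediateField.algebraMap_mem _ _) n)
    obtain ⟨p, q, -, rfl⟩ := IsFractionRing.div_surjective (A := Polynomial Fl) x
    exact div_mem (hpoly p) (hpoly q)
  · exact WTL.fractionRing hl hW (RatFunc Fl)

/-- **function fields of one variable** -/
theorem IsCurveField.wtlupI {l i : ℕ} (hl : 0 < l) {K E : Type u} [Field K] [Field E]
    [Algebra K E] (hK : WTLupI l i K) (hE : IsCurveField K E) : WTLupI l (i + 1) E := by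
  obtain ⟨M, _, _, h, hW⟩ := hK
  obtain ⟨t, ht, hfin⟩ := hE
  have h1 : WTLupI l (i + 1) (IntermediateField.adjoin K {t}) :=
    (wtlupI_ratFunc hl h hW).of_ringEquiv (RatFunc.algEquivOfTranscendental t ht).toRingEquiv
  exact h1.of_finite

/-- Systems of forms have a zero over a finite separable extension of degree prime to `l`. -/
theorem WTLupI.exists_zero {l i : ℕ} {E : Type u} [Field E] (h : WTLupI l i E) {n r : ℕ}
    (d : Fin r → ℕ) (hd : ∀ a, 0 < d a) (hn : ∑ a, d a ^ i * l ^ padicValNat l (d a) ≤ n)
    (f : Fin r → MvPolynomial (Fin (n + 1)) E) (hf : ∀ a, (f a).IsHomogeneous (d a)) :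
    ∃ (M : Type u) (_ : Field M) (_ : Algebra E M), FiniteDimensional E M ∧ IsGalois E M ∧
      (Module.finrank E M).Coprime l ∧
      ∃ x : Fin (n + 1) → M, x ≠ 0 ∧ ∀ a, aeval x (f a) = 0 := by
  classical
  obtain ⟨Ω, _, _, hΩ, hW⟩ := h
  obtain ⟨x, hx0, hx⟩ := hW (Fin r) (Fin (n + 1)) d (fun _ => 1)
    (fun a => map (algebraMap E Ω) (f a))
    (fun a => (hf a).map _) hd (fun _ => one_pos) (by
      simp only [wcost, one_pow, padicValNat_one_right, pow_zero, mul_one, Finset.sum_const,
        Finset.card_univ, Fintype.card_fin, smul_eq_mul]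
      omega)
  obtain ⟨P, hP, hfin, hgal, hcop⟩ := hΩ (Finset.univ.image x)
  have hxP : ∀ i, x i ∈ P := fun i => hP (by simp)
  refine ⟨P, inferInstance, inferInstance, hfin, hgal, hcop, fun i => ⟨x i, hxP i⟩, fun h0 => ?_,
    fun a => ?_⟩
  · exact hx0 (funext fun i => congrArg Subtype.val (congrFun h0 i))
  · apply (algebraMap P Ω).injective
    rw [map_zero, ← aeval_algebraMap_apply]
    have h1 := hx a
    rw [eval_map, ← aeval_def] at h1
    exact h1

end ZC
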